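import Pool.Agent.Lib.MP_28303a_al.NK.Iface2

/-! # Module EXT: cokernels of injective maps between finitely resolved modules -/

set_option autoImplicit false

namespace Pool.Agent.NegK.H50

universe u

section

variable {R : Type u} [Ring R]

theorem hasFPRes_zero_of_subsingleton (M : Type u) [AddCommGroup M] [Module R M]
    [Subsingleton M] : HasFPRes R 0 M :=
  ⟨inferInstance, inferInstance⟩

theorem HasFPRes.succ {n : ℕ} : ∀ {M : Type u} [AddCommGroup M] [Module R M],
    HasFPRes R n M → HasFPRes R (n + 1) M := by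
  induction n with
  | zero =>
    intro M _ _ h
    obtain ⟨h1, h2⟩ := h
    refine ⟨M, _, _, LinearMap.id, h1, h2, Function.surjective_id, ?_⟩
    have : Subsingleton (LinearMap.ker (LinearMap.id : M →ₗ[R] M)) := by
      rw [LinearMap.ker_id]
      infer_instance
    exact hasFPRes_zero_of_subsingleton _
  | succ n ih =>
    intro M _ _ h
    obtain ⟨P, _, _, f, h1, h2, h3, h4⟩ := h
    exact ⟨P, _, _, f, h1, h2, h3, ih h4⟩

theorem HasFPRes.mono {n m : ℕ} (hnm : n ≤ m) {M : Type u} [AddCommGroup M] [Module R M]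
    (h : HasFPRes R n M) : HasFPRes R m M := by
  induction m, hnm using Nat.le_induction with
  | base => exact h
  | succ m _ ih => exact HasFPRes.succ ih

/-- The horseshoe lemma. -/
theorem HasFPRes.horseshoe {n : ℕ} : ∀ {K N X : Type u} [AddCommGroup K] [Module R K]
    [AddCommGroup N] [Module R N] [AddCommGroup X] [Module R X] (i : K →ₗ[R] N)
    (h : N →ₗ[R] X), Function.Injective i → Function.Surjective h →
    LinearMap.range i = LinearMap.ker h → HasFPRes R n K → HasFPRes R n X →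
    HasFPRes R n N := by
  induction n with
  | zero =>
    intro K N X _ _ _ _ _ _ i h hi hh hih hK hX
    obtain ⟨hK1, hK2⟩ := hK
    obtain ⟨hX1, hX2⟩ := hX
    obtain ⟨e⟩ := exists_splitEquiv hX2 h hh
    have e1 : K ≃ₗ[R] LinearMap.ker h :=
      (LinearEquiv.ofInjective i hi).trans (LinearEquiv.ofEq _ _ hih)
    have h1 : HasFPRes R 0 (LinearMap.ker h) :=
      HasFPRes.congr (n := 0) e1 ⟨hK1, hK2⟩
    exact (h1.prod hX1 hX2).congr e.symm
  | succ n ih =>
    intro K N X _ _ _ _ _ _ i h hi hh hih hK hX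
    obtain ⟨P, _, _, p, hP1, hP2, hP3, hP4⟩ := hK
    obtain ⟨Q, _, _, q, hQ1, hQ2, hQ3, hQ4⟩ := hX
    obtain ⟨g, hg⟩ := Module.projective_lifting_property h q hh
    have hg' : ∀ b, h (g b) = q b := fun b => LinearMap.congr_fun hg b
    have hhi : ∀ a, h (i a) = 0 := by
      intro a
      have : i a ∈ LinearMap.ker h := hih ▸ LinearMap.mem_range_self i a
      exact this
    let F : P × Q →ₗ[R] N := LinearMap.coprod (i ∘ₗ p) g
    have hF : ∀ a b, F (a, b) = i (p a) + g b := fun a b => rfl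
    refine ⟨P × Q, _, _, F, inferInstance, inferInstance, ?_, ?_⟩
    · intro x
      obtain ⟨b, hb⟩ := hQ3 (h x)
      have h1 : x - g b ∈ LinearMap.range i := by
        rw [hih, LinearMap.mem_ker, map_sub, hg', hb, sub_self]
      obtain ⟨k, hk⟩ := h1
      obtain ⟨a, rfl⟩ := hP3 k
      exact ⟨(a, b), by rw [hF, hk]; abel⟩
    · let i' : LinearMap.ker p →ₗ[R] LinearMap.ker F :=
        LinearMap.codRestrict _ ((LinearMap.inl R P Q) ∘ₗ (LinearMap.ker p).subtype) (by
          rintro ⟨a, ha⟩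
          rw [LinearMap.mem_ker] at ha ⊢
          show i (p a) + g 0 = 0
          rw [ha, map_zero, map_zero, add_zero])
      let h' : LinearMap.ker F →ₗ[R] LinearMap.ker q :=
        LinearMap.codRestrict _ ((LinearMap.snd R P Q) ∘ₗ (LinearMap.ker F).subtype) (by
          rintro ⟨⟨a, b⟩, hab⟩
          rw [LinearMap.mem_ker] at hab ⊢
          show q b = 0
          rw [hF] at hab
          have h2 : h (i (p a) + g b) = 0 := by rw [hab, map_zero]
          rw [map_add, hhi, zero_add, hg'] at h2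
          exact h2)
      refine ih i' h' ?_ ?_ ?_ hP4 hQ4
      · rintro ⟨a, ha⟩ ⟨b, hb⟩ hab
        have h1 : ((a, 0) : P × Q) = (b, 0) := congrArg Subtype.val hab
        exact Subtype.ext (congrArg Prod.fst h1)
      · rintro ⟨b, hb⟩
        have hb' : q b = 0 := hb
        have h1 : g b ∈ LinearMap.range i := by
          rw [hih, LinearMap.mem_ker, hg', hb']
        obtain ⟨k, hk⟩ := h1
        obtain ⟨a, rfl⟩ := hP3 k
        refine ⟨⟨(-a, b), ?_⟩, Subtype.ext rfl⟩
        rw [LinearMap.mem_ker, hF, map_neg, map_neg, hk]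
        abel
      · ext x
        rw [LinearMap.mem_range, LinearMap.mem_ker]
        constructor
        · rintro ⟨a, rfl⟩
          rfl
        · intro hx
          obtain ⟨⟨a, b⟩, hab⟩ := x
          have hb : b = 0 := congrArg Subtype.val hx
          subst hb
          rw [LinearMap.mem_ker, hF, map_zero, add_zero] at hab
          have ha : p a = 0 := hi (by rw [hab, map_zero])
          exact ⟨⟨a, ha⟩, Subtype.ext rfl⟩

end

/-- Module EXT. -/
theorem ext : ExtStatement.{u} := by
  intro R _ X Y M _ _ _ _ _ _ i f hi hf hif hX hY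
  obtain ⟨n, hX⟩ := hX
  obtain ⟨m, hY⟩ := hY
  obtain ⟨P, _, _, p, hP1, hP2, hP3, hP4⟩ := HasFPRes.succ hY
  have hfi : ∀ a, f (i a) = 0 := by
    intro a
    have : i a ∈ LinearMap.ker f := hif ▸ LinearMap.mem_range_self i a
    exact this
  refine ⟨max m n + 1, P, _, _, f ∘ₗ p, hP1, hP2, hf.comp hP3, ?_⟩
  -- `0 → ker p → ker (f ∘ p) → X → 0`
  let e : X ≃ₗ[R] LinearMap.ker f :=
    (LinearEquiv.ofInjective i hi).trans (LinearEquiv.ofEq _ _ hif)
  have he : ∀ x, ((e x : LinearMap.ker f) : Y) = i x := fun x => rfl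
  let j : LinearMap.ker p →ₗ[R] LinearMap.ker (f ∘ₗ p) :=
    LinearMap.codRestrict _ (LinearMap.ker p).subtype (by
      rintro ⟨a, ha⟩
      rw [LinearMap.mem_ker] at ha ⊢
      show f (p a) = 0
      rw [ha, map_zero])
  let h0 : LinearMap.ker (f ∘ₗ p) →ₗ[R] LinearMap.ker f :=
    LinearMap.codRestrict _ (p ∘ₗ (LinearMap.ker (f ∘ₗ p)).subtype) (by
      rintro ⟨a, ha⟩
      exact ha)
  have h1 := HasFPRes.horseshoe (n := max m n) j (e.symm.toLinearMap ∘ₗ h0) ?_ ?_ ?_
    (HasFPRes.mono (le_max_left _ _) hP4) (HasFPRes.mono (le_max_right _ _) hX)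
  · exact h1
  · rintro ⟨a, ha⟩ ⟨b, hb⟩ hab
    have h1 : a = b := congrArg (fun z : LinearMap.ker (f ∘ₗ p) => (z : P)) hab
    exact Subtype.ext h1
  · refine e.symm.surjective.comp ?_
    rintro ⟨y, hy⟩
    obtain ⟨a, rfl⟩ := hP3 y
    exact ⟨⟨a, hy⟩, rfl⟩
  · rw [LinearEquiv.ker_comp]
    ext x
    rw [LinearMap.mem_range, LinearMap.mem_ker]
    constructor
    · rintro ⟨a, rfl⟩
      exact Subtype.ext a.2
    · intro hx
      have hx' : p (x : P) = 0 := congrArg Subtype.val hx
      exact ⟨⟨(x : P), hx'⟩, rfl⟩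

end Pool.Agent.NegK.H50
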