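import Pool.Agent.Lib.MP_28303a_al.NK.H50.Rep

/-! # Module FREE: `K₀(S) → K₀(S[F])` is onto for regular `S` and free groups `F` -/

set_option autoImplicit false
set_option linter.unusedSectionVars false

namespace Pool.Agent.NegK.H50

open MonoidAlgebra (single)

universe u

/-- A counting function on a free group: it changes exactly along one edge of the Cayley tree. -/
theorem exists_count {k : ℕ} (h : FreeGroup (Fin k)) (j : Fin k) :
    ∃ c : FreeGroup (Fin k) → ℤ, ∀ (g : FreeGroup (Fin k)) (i : Fin k),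
      c (g * FreeGroup.of i) = c g + (open Classical in if g = h ∧ i = j then 1 else 0) := by
  classical
  let δ : FreeGroup (Fin k) → Fin k → ℤ := fun g i => if g = h ∧ i = j then 1 else 0
  let π : Fin k → Equiv.Perm (ℤ × FreeGroup (Fin k)) := fun i =>
    { toFun := fun x => (x.1 + δ x.2 i, x.2 * FreeGroup.of i)
      invFun := fun x => (x.1 - δ (x.2 * (FreeGroup.of i)⁻¹) i, x.2 * (FreeGroup.of i)⁻¹)
      left_inv := by
        rintro ⟨m, g⟩
        simp only [mul_inv_cancel_right, add_sub_cancel_right]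
      right_inv := by
        rintro ⟨m, g⟩
        simp only [inv_mul_cancel_right, sub_add_cancel] }
  let Φ : FreeGroup (Fin k) →* Equiv.Perm (ℤ × FreeGroup (Fin k)) :=
    FreeGroup.lift (fun i => (π i)⁻¹)
  have hΦ : ∀ i, Φ (FreeGroup.of i) = (π i)⁻¹ := fun i => FreeGroup.lift_apply_of
  have h2 : ∀ g : FreeGroup (Fin k), ∀ y, ((Φ g)⁻¹ y).2 = y.2 * g := by
    intro g
    induction g using FreeGroup.induction_on with
    | C1 => intro y; rw [map_one, inv_one, Equiv.Perm.one_apply, mul_one]
    | of i =>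
      intro y
      rw [hΦ, inv_inv]; rfl
    | inv_of i _ =>
      intro y
      rw [map_inv, hΦ, inv_inv]; rfl
    | mul a b ha hb =>
      intro y
      rw [map_mul, mul_inv_rev, Equiv.Perm.mul_apply, hb, ha, mul_assoc]
  refine ⟨fun g => ((Φ g)⁻¹ (0, 1)).1, fun g i => ?_⟩
  show ((Φ (g * FreeGroup.of i))⁻¹ (0, 1)).1 = _
  rw [map_mul, mul_inv_rev, Equiv.Perm.mul_apply, hΦ, inv_inv]
  have h3 : ((Φ g)⁻¹ (0, 1)).2 = g := by rw [h2, one_mul]
  show ((Φ g)⁻¹ (0, 1)).1 + δ ((Φ g)⁻¹ (0, 1)).2 i = _
  rw [h3]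

section

variable {S : Type u} [Ring S] {k : ℕ}
  {P : Type u} [AddCommGroup P] [Module (MonoidAlgebra S (FreeGroup (Fin k))) P] [Module S P]
  [IsScalarTower S (MonoidAlgebra S (FreeGroup (Fin k))) P]

/-- The generators. -/
abbrev xg (j : Fin k) : FreeGroup (Fin k) := FreeGroup.of j

/-- The action of a group element on `P`. -/
noncomputable abbrev gact (P : Type u) [AddCommGroup P]
    [Module (MonoidAlgebra S (FreeGroup (Fin k))) P] [Module S P]
    [IsScalarTower S (MonoidAlgebra S (FreeGroup (Fin k))) P] (g : FreeGroup (Fin k)) :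
    P →ₗ[S] P := Ind.actG S P g

theorem gact_mul (g h : FreeGroup (Fin k)) (p : P) :
    gact (S := S) P g (gact (S := S) P h p) = gact (S := S) P (g * h) p := by
  rw [Ind.actG_apply, Ind.actG_apply, Ind.actG_apply, smul_smul, MonoidAlgebra.single_mul_single,
    mul_one]

theorem gact_one (p : P) : gact (S := S) P (1 : FreeGroup (Fin k)) p = p := by
  rw [Ind.actG_apply, ← MonoidAlgebra.one_def, one_smul]

theorem gact_inj (g : FreeGroup (Fin k)) {p : P} (h : gact (S := S) P g p = 0) : p = 0 := by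
  have h1 := gact_mul (S := S) g⁻¹ g p
  rw [h, map_zero, inv_mul_cancel, gact_one] at h1
  exact h1.symm

/-- The relations of a submodule. -/
noncomputable def relS (V : Submodule S P) :
    Submodule (MonoidAlgebra S (FreeGroup (Fin k))) (Ind S (FreeGroup (Fin k)) P) :=
  Submodule.span _ {z | ∃ (j : Fin k) (q : P), q ∈ V ∧ gact (S := S) P (xg j) q ∈ V ∧
    z = Ind.sg S 1 (gact (S := S) P (xg j) q) - Ind.sg S (xg j) q}

/-- The submodule generated by a submodule of `P`. -/
noncomputable def indS (k : ℕ) (V : Submodule S P) :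
    Submodule (MonoidAlgebra S (FreeGroup (Fin k))) (Ind S (FreeGroup (Fin k)) P) :=
  Submodule.span _ {z | ∃ q : P, q ∈ V ∧ z = Ind.sg S 1 q}

theorem relS_mono {V W : Submodule S P} (h : V ≤ W) : relS V ≤ relS (k := k) W := by
  refine Submodule.span_mono ?_
  rintro z ⟨j, q, h1, h2, rfl⟩
  exact ⟨j, q, h h1, h h2, rfl⟩

theorem relS_gen {V : Submodule S P} (j : Fin k) {q : P} (h1 : q ∈ V)
    (h2 : gact (S := S) P (xg j) q ∈ V) (g : FreeGroup (Fin k)) :
    Ind.sg S g (gact (S := S) P (xg j) q) - Ind.sg S (g * xg j) q ∈ relS V := by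
  have h3 := (relS V).smul_mem (single g (1 : S)) (Submodule.subset_span
    ⟨j, q, h1, h2, rfl⟩ : Ind.sg S 1 (gact (S := S) P (xg j) q) - Ind.sg S (xg j) q ∈ relS V)
  rw [smul_sub, Ind.single_smul_sg, Ind.single_smul_sg, one_smul, one_smul, mul_one] at h3
  exact h3

theorem relS_gen_inv {V : Submodule S P} (j : Fin k) {q : P} (h1 : q ∈ V)
    (h2 : gact (S := S) P (xg j)⁻¹ q ∈ V) (g : FreeGroup (Fin k)) :
    Ind.sg S g (gact (S := S) P (xg j)⁻¹ q) - Ind.sg S (g * (xg j)⁻¹) q ∈ relS V := by
  have h3 : gact (S := S) P (xg j) (gact (S := S) P (xg j)⁻¹ q) = q := by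
    rw [gact_mul, mul_inv_cancel, gact_one]
  have h4 := relS_gen j h2 (by rw [h3]; exact h1) (g * (xg j)⁻¹)
  rw [h3, inv_mul_cancel_right] at h4
  have h5 := (relS V).neg_mem h4
  rwa [neg_sub] at h5

/-- The increasing sequence of submodules. -/
noncomputable def VV (k : ℕ) [Module (MonoidAlgebra S (FreeGroup (Fin k))) P]
    [IsScalarTower S (MonoidAlgebra S (FreeGroup (Fin k))) P] (V : Submodule S P) :
    ℕ → Submodule S P
  | 0 => V
  | n + 1 => VV k V n ⊔ ⨆ j : Fin k, ((VV k V n).map (gact (S := S) P (xg j)) ⊔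
      (VV k V n).map (gact (S := S) P (xg j)⁻¹))

theorem VV_succ_le (V : Submodule S P) (n : ℕ) : VV k V n ≤ VV k V (n + 1) := le_sup_left

theorem VV_mono (V : Submodule S P) {n m : ℕ} (h : n ≤ m) : VV k V n ≤ VV k V m :=
  monotone_nat_of_le_succ (VV_succ_le V) h

theorem VV_gen {V : Submodule S P} {n : ℕ} {p : P} (h : p ∈ VV k V n) (j : Fin k) :
    gact (S := S) P (xg j) p ∈ VV k V (n + 1) := by
  refine Submodule.mem_sup_right (Submodule.mem_iSup_of_mem j ?_)
  exact Submodule.mem_sup_left ⟨p, h, rfl⟩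

theorem VV_gen_inv {V : Submodule S P} {n : ℕ} {p : P} (h : p ∈ VV k V n) (j : Fin k) :
    gact (S := S) P (xg j)⁻¹ p ∈ VV k V (n + 1) := by
  refine Submodule.mem_sup_right (Submodule.mem_iSup_of_mem j ?_)
  exact Submodule.mem_sup_right ⟨p, h, rfl⟩

theorem VV_fg {V : Submodule S P} (h : V.FG) (n : ℕ) : (VV k V n).FG := by
  induction n with
  | zero => exact h
  | succ n ih =>
    exact ih.sup (Submodule.fg_iSup _ (fun j => (ih.map _).sup (ih.map _)))

/-- Telescoping for a group element. -/
theorem telescope (V : Submodule S P) (w : FreeGroup (Fin k)) : ∀ n, ∃ m, n ≤ m ∧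
    ∀ p ∈ VV k V n, gact (S := S) P w p ∈ VV k V m ∧
      Ind.sg S 1 (gact (S := S) P w p) - Ind.sg S w p ∈ relS (VV k V m) := by
  induction w using FreeGroup.induction_on with
  | C1 =>
    intro n
    refine ⟨n, le_rfl, fun p hp => ?_⟩
    rw [gact_one, sub_self]
    exact ⟨hp, Submodule.zero_mem _⟩
  | of j =>
    intro n
    refine ⟨n + 1, Nat.le_succ n, fun p hp => ⟨VV_gen hp j, ?_⟩⟩
    have h1 := relS_gen j (VV_succ_le V n hp) (VV_gen hp j) 1
    rwa [one_mul] at h1
  | inv_of j _ =>
    intro n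
    refine ⟨n + 1, Nat.le_succ n, fun p hp => ⟨VV_gen_inv hp j, ?_⟩⟩
    have h1 := relS_gen_inv j (VV_succ_le V n hp) (VV_gen_inv hp j) 1
    rwa [one_mul] at h1
  | mul a b ha hb =>
    intro n
    obtain ⟨m, hm, h1⟩ := hb n
    obtain ⟨l, hl, h2⟩ := ha m
    refine ⟨l, hm.trans hl, fun p hp => ?_⟩
    obtain ⟨h3, h4⟩ := h1 p hp
    obtain ⟨h5, h6⟩ := h2 _ h3
    rw [gact_mul] at h5 h6
    refine ⟨h5, ?_⟩
    have h7 := (relS (VV k V l)).smul_mem (single a (1 : S)) (relS_mono (VV_mono V hl) h4)
    rw [smul_sub, Ind.single_smul_sg, Ind.single_smul_sg, one_smul, one_smul, mul_one] at h7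
    have h8 := (relS (VV k V l)).add_mem h6 h7
    rwa [sub_add_sub_cancel] at h8

/-- Elements of the larger submodules can be moved to the first one. -/
theorem descend (V : Submodule S P) (n : ℕ) : ∀ v ∈ VV k V n,
    Ind.sg S 1 v ∈ relS (VV k V n) ⊔ indS k V := by
  induction n with
  | zero =>
    intro v hv
    exact Submodule.mem_sup_right (Submodule.subset_span ⟨v, hv, rfl⟩)
  | succ n ih =>
    have hle : relS (VV k V n) ⊔ indS k V ≤ relS (VV k V (n + 1)) ⊔ indS k V :=
      sup_le_sup_right (relS_mono (VV_succ_le V n)) _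
    -- the set of good elements is a submodule
    let W : Submodule S P :=
      ((relS (VV k V (n + 1)) ⊔ indS k V).restrictScalars S).comap (Ind.lsg S P 1)
    have hW : ∀ v, v ∈ W ↔ Ind.sg S 1 v ∈ relS (VV k V (n + 1)) ⊔ indS k V := fun v => Iff.rfl
    have h1 : VV k V (n + 1) ≤ W := by
      refine sup_le ?_ (iSup_le fun j => sup_le ?_ ?_)
      · intro v hv
        exact hle (ih v hv)
      · rintro _ ⟨v, hv, rfl⟩
        rw [hW]
        have h2 := relS_gen j (VV_succ_le V n hv) (VV_gen hv j) 1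
        rw [one_mul] at h2
        have h3 := (relS (VV k V (n + 1)) ⊔ indS k V).smul_mem (single (xg j) (1 : S))
          (hle (ih v hv))
        rw [Ind.single_smul_sg, one_smul, mul_one] at h3
        have h4 := (relS (VV k V (n + 1)) ⊔ indS k V).add_mem (Submodule.mem_sup_left h2) h3
        rwa [sub_add_cancel] at h4
      · rintro _ ⟨v, hv, rfl⟩
        rw [hW]
        have h2 := relS_gen_inv j (VV_succ_le V n hv) (VV_gen_inv hv j) 1
        rw [one_mul] at h2
        have h3 := (relS (VV k V (n + 1)) ⊔ indS k V).smul_mem (single (xg j)⁻¹ (1 : S))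
          (hle (ih v hv))
        rw [Ind.single_smul_sg, one_smul, mul_one] at h3
        have h4 := (relS (VV k V (n + 1)) ⊔ indS k V).add_mem (Submodule.mem_sup_left h2) h3
        rwa [sub_add_cancel] at h4
    intro v hv
    exact h1 hv

/-- The multiplication map. -/
noncomputable def eps (V : Submodule S P) :
    Ind S (FreeGroup (Fin k)) V →ₗ[MonoidAlgebra S (FreeGroup (Fin k))] P :=
  Ind.lift V.subtype

theorem eps_sg (V : Submodule S P) (g : FreeGroup (Fin k)) (v : V) :
    eps V (Ind.sg S g v) = gact (S := S) P g v := Ind.lift_sg _ _ _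

/-- The multiplication map on everything. -/
noncomputable def epsP (S : Type u) [Ring S] (k : ℕ) (P : Type u) [AddCommGroup P]
    [Module (MonoidAlgebra S (FreeGroup (Fin k))) P] [Module S P]
    [IsScalarTower S (MonoidAlgebra S (FreeGroup (Fin k))) P] :
    Ind S (FreeGroup (Fin k)) P →ₗ[MonoidAlgebra S (FreeGroup (Fin k))] P :=
  Ind.lift LinearMap.id

theorem epsP_sg (g : FreeGroup (Fin k)) (v : P) :
    epsP S k P (Ind.sg S g v) = gact (S := S) P g v := Ind.lift_sg _ _ _

theorem epsP_map (V : Submodule S P) (z : Ind S (FreeGroup (Fin k)) V) :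
    epsP S k P (Ind.map V.subtype z) = eps V z := by
  have h : (epsP S k P) ∘ₗ (Ind.map V.subtype) = eps V := by
    refine Ind.hom_ext fun v => ?_
    rw [LinearMap.comp_apply, Ind.map_sg, epsP_sg, eps_sg]
    rfl
  exact LinearMap.congr_fun h z

theorem epsP_relS (V : Submodule S P) : relS V ≤ LinearMap.ker (epsP S k P) := by
  refine Submodule.span_le.2 ?_
  rintro z ⟨j, q, h1, h2, rfl⟩
  show _ ∈ LinearMap.ker (epsP S k P)
  rw [LinearMap.mem_ker, map_sub, epsP_sg, epsP_sg, gact_one, sub_self]

theorem indS_eq (V : Submodule S P) :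
    indS k V ≤ LinearMap.range (Ind.map (G := FreeGroup (Fin k)) V.subtype) := by
  refine Submodule.span_le.2 ?_
  rintro z ⟨q, hq, rfl⟩
  exact ⟨Ind.sg S 1 ⟨q, hq⟩, Ind.map_sg _ _ _⟩

/-- Elements of the kernel become relations. -/
theorem ker_step (V : Submodule S P) (z : Ind S (FreeGroup (Fin k)) V) :
    ∃ n, Ind.sg S 1 (eps V z) - Ind.map V.subtype z ∈ relS (VV k V n) := by
  induction z using Ind.induction with
  | h0 =>
    refine ⟨0, ?_⟩
    rw [map_zero, map_zero, Ind.sg_zero, sub_zero]
    exact Submodule.zero_mem _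
  | hadd x y hx hy =>
    obtain ⟨n, hn⟩ := hx
    obtain ⟨m, hm⟩ := hy
    refine ⟨max n m, ?_⟩
    have h1 := Submodule.add_mem _ (relS_mono (VV_mono V (le_max_left n m)) hn)
      (relS_mono (VV_mono V (le_max_right n m)) hm)
    rw [map_add, map_add, Ind.sg_add]
    rwa [sub_add_sub_comm] at h1
  | hs g v =>
    obtain ⟨m, _, h⟩ := telescope V g 0
    refine ⟨m, ?_⟩
    rw [eps_sg, Ind.map_sg]
    exact (h v v.2).2

/-- The edge module. -/
def QQ (k : ℕ) [Module (MonoidAlgebra S (FreeGroup (Fin k))) P]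
    [IsScalarTower S (MonoidAlgebra S (FreeGroup (Fin k))) P] (V : Submodule S P) :
    Submodule S (Fin k → P) where
  carrier := {q | ∀ j, q j ∈ V ∧ gact (S := S) P (xg j) (q j) ∈ V}
  add_mem' := by
    intro a b ha hb j
    refine ⟨V.add_mem (ha j).1 (hb j).1, ?_⟩
    rw [Pi.add_apply, map_add]
    exact V.add_mem (ha j).2 (hb j).2
  zero_mem' := by
    intro j
    refine ⟨V.zero_mem, ?_⟩
    rw [Pi.zero_apply, map_zero]
    exact V.zero_mem
  smul_mem' := by
    intro s a ha j
    refine ⟨V.smul_mem s (ha j).1, ?_⟩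
    rw [Pi.smul_apply, map_smul]
    exact V.smul_mem s (ha j).2

/-- `q ↦ q_j`. -/
def qa (V : Submodule S P) (j : Fin k) : QQ k V →ₗ[S] V :=
  LinearMap.codRestrict V (LinearMap.proj j ∘ₗ (QQ k V).subtype) (fun q => (q.2 j).1)

/-- `q ↦ x_j q_j`. -/
noncomputable def qb (V : Submodule S P) (j : Fin k) : QQ k V →ₗ[S] V :=
  LinearMap.codRestrict V (gact (S := S) P (xg j) ∘ₗ LinearMap.proj j ∘ₗ (QQ k V).subtype)
    (fun q => (q.2 j).2)

/-- The boundary map. -/
noncomputable def theta (V : Submodule S P) :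
    Ind S (FreeGroup (Fin k)) (QQ k V) →ₗ[MonoidAlgebra S (FreeGroup (Fin k))]
      Ind S (FreeGroup (Fin k)) V :=
  Ind.lift (∑ j, (Ind.lsg S V (1 : FreeGroup (Fin k)) ∘ₗ qb V j -
    Ind.lsg S V (xg j) ∘ₗ qa V j))

theorem theta_sg (V : Submodule S P) (g : FreeGroup (Fin k)) (q : QQ k V) :
    theta V (Ind.sg S g q) =
      ∑ j, (Ind.sg S g (qb V j q) - Ind.sg S (g * xg j) (qa V j q)) := by
  unfold theta
  rw [Ind.lift_sg, LinearMap.sum_apply, Finset.smul_sum]
  refine Finset.sum_congr rfl fun j _ => ?_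
  rw [LinearMap.sub_apply, LinearMap.comp_apply, LinearMap.comp_apply, Ind.lsg_apply,
    Ind.lsg_apply, smul_sub, Ind.single_smul_sg, Ind.single_smul_sg, one_smul, one_smul, mul_one]

theorem theta_injective (V : Submodule S P) : Function.Injective (theta (k := k) V) := by
  classical
  rw [injective_iff_map_eq_zero]
  intro z hz
  refine Ind.ext_coef fun h => ?_
  refine Subtype.ext (funext fun j => ?_)
  rw [map_zero]
  obtain ⟨c, hc⟩ := exists_count h j
  let T : Ind S (FreeGroup (Fin k)) V →+ P :=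
    Finsupp.liftAddHom (fun g => c g • ((gact (S := S) P g).comp V.subtype).toAddMonoidHom)
  have hT : ∀ g v, T (Ind.sg S g v) = c g • gact (S := S) P g v := fun g v =>
    Finsupp.liftAddHom_apply_single _ g v
  have key : ∀ y : Ind S (FreeGroup (Fin k)) (QQ k V),
      T (theta V y) = -gact (S := S) P (h * xg j) (((Ind.coef h y : QQ k V) : Fin k → P) j) := by
    intro y
    induction y using Ind.induction with
    | h0 => simp only [map_zero, Submodule.coe_zero, Pi.zero_apply, neg_zero]
    | hadd x y hx hy =>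
      rw [map_add, map_add, hx, hy, map_add, Submodule.coe_add, Pi.add_apply, map_add, neg_add]
    | hs g q =>
      rw [theta_sg, map_sum, Ind.coef_sg]
      have h1 : ∀ i, T (Ind.sg S g (qb V i q) - Ind.sg S (g * xg i) (qa V i q)) =
          -((if g = h ∧ i = j then (1 : ℤ) else 0) •
            gact (S := S) P (g * xg i) ((q : Fin k → P) i)) := by
        intro i
        rw [map_sub, hT, hT, hc]
        have h2 : (qb V i q : P) = gact (S := S) P (xg i) ((q : Fin k → P) i) := rfl
        have h3 : (qa V i q : P) = (q : Fin k → P) i := rfl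
        rw [h2, h3, gact_mul, ← sub_smul, ← neg_smul]
        congr 1
        ring
      rw [Finset.sum_congr rfl (fun i _ => h1 i), Finset.sum_eq_single j]
      · by_cases hg : g = h
        · subst hg
          simp
        · simp [hg]
      · intro i _ hi
        simp [hi]
      · intro hj
        exact absurd (Finset.mem_univ j) hj
  have h4 := key z
  rw [hz, map_zero] at h4
  exact gact_inj (S := S) (h * xg j) (neg_eq_zero.1 h4.symm)

theorem range_theta_le (V : Submodule S P) :
    LinearMap.range (theta (k := k) V) ≤ LinearMap.ker (eps V) := by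
  rw [LinearMap.range_le_ker_iff]
  refine Ind.hom_ext fun q => ?_
  rw [LinearMap.comp_apply, theta_sg, map_sum, LinearMap.zero_apply]
  refine Finset.sum_eq_zero fun j _ => ?_
  rw [map_sub, eps_sg, eps_sg, gact_one, one_mul]
  exact sub_self _

theorem relS_le (V : Submodule S P) :
    relS (k := k) V ≤ (LinearMap.range (theta (k := k) V)).map (Ind.map V.subtype) := by
  classical
  refine Submodule.span_le.2 ?_
  rintro z ⟨j, q, h1, h2, rfl⟩
  let q' : QQ k V := ⟨Pi.single j q, fun i => by
    by_cases hi : i = j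
    · subst hi
      rw [Pi.single_eq_same]
      exact ⟨h1, h2⟩
    · rw [Pi.single_eq_of_ne hi, map_zero]
      exact ⟨V.zero_mem, V.zero_mem⟩⟩
  refine ⟨theta V (Ind.sg S 1 q'), ⟨_, rfl⟩, ?_⟩
  rw [theta_sg, map_sum, Finset.sum_eq_single j]
  · rw [map_sub, Ind.map_sg, Ind.map_sg, one_mul]
    have h3 : (q' : Fin k → P) j = q := by
      show (Pi.single j q : Fin k → P) j = q
      exact Pi.single_eq_same _ _
    show Ind.sg S 1 (gact (S := S) P (xg j) ((q' : Fin k → P) j)) -
      Ind.sg S (xg j) ((q' : Fin k → P) j) = _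
    rw [h3]
  · intro i _ hi
    rw [map_sub, Ind.map_sg, Ind.map_sg, one_mul]
    have h3 : (q' : Fin k → P) i = 0 := by
      show (Pi.single j q : Fin k → P) i = 0
      exact Pi.single_eq_of_ne hi _
    show Ind.sg S 1 (gact (S := S) P (xg i) ((q' : Fin k → P) i)) -
      Ind.sg S (xg i) ((q' : Fin k → P) i) = 0
    rw [h3, map_zero, Ind.sg_zero, Ind.sg_zero, sub_zero]
  · intro hj
    exact absurd (Finset.mem_univ j) hj

/-- The geometric step: a finitely generated projective module over `S[F]`, `S` noetherian, has a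
presentation by induced modules. -/
theorem geometric [IsNoetherianRing S]
    (hP1 : Module.Finite (MonoidAlgebra S (FreeGroup (Fin k))) P)
    (hP2 : Module.Projective (MonoidAlgebra S (FreeGroup (Fin k))) P) :
    ∃ (V : Submodule S P) (Q : Submodule S (Fin k → P)), Module.Finite S V ∧ Module.Finite S Q ∧
      Nonempty (Ind S (FreeGroup (Fin k)) V ≃ₗ[MonoidAlgebra S (FreeGroup (Fin k))]
        Ind S (FreeGroup (Fin k)) Q × P) := by
  obtain ⟨T, hT⟩ := hP1.fg_top
  let V0 : Submodule S P := Submodule.span S (T : Set P)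
  have hV0 : V0.FG := ⟨T, rfl⟩
  have hsurj0 : ∀ V : Submodule S P, V0 ≤ V → Function.Surjective (eps (k := k) V) := by
    intro V hV
    rw [← LinearMap.range_eq_top, ← top_le_iff, ← hT, Submodule.span_le]
    intro t ht
    refine ⟨Ind.sg S 1 ⟨t, hV (Submodule.subset_span ht)⟩, ?_⟩
    rw [eps_sg, gact_one]
  -- finite generation of `Ind V0`
  have hfin : Module.Finite (MonoidAlgebra S (FreeGroup (Fin k)))
      (Ind S (FreeGroup (Fin k)) V0) := by
    have h1 : Module.Finite S V0 := Module.Finite.iff_fg.2 hV0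
    obtain ⟨n, f, hf⟩ := Module.Finite.exists_fin' S V0
    have h2 : Rep (Ind S (FreeGroup (Fin k)) (Fin n → S)) _ :=
      Rep.ind (G := FreeGroup (Fin k)) (exists_rep (A := S) (M := Fin n → S)
        inferInstance inferInstance).choose_spec
    have h3 := h2.finite
    exact Module.Finite.of_surjective (Ind.map f) (Ind.map_surjective hf)
  obtain ⟨e0⟩ := exists_splitEquiv hP2 (eps V0) (hsurj0 V0 le_rfl)
  have hK : Module.Finite (MonoidAlgebra S (FreeGroup (Fin k)))
      (LinearMap.ker (eps (k := k) V0)) :=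
    Module.Finite.of_surjective
      (LinearMap.fst (MonoidAlgebra S (FreeGroup (Fin k))) (LinearMap.ker (eps (k := k) V0)) P ∘ₗ
        e0.toLinearMap)
      (fun y => by
        obtain ⟨x, hx⟩ := e0.surjective (y, 0)
        exact ⟨x, congrArg Prod.fst hx⟩)
  obtain ⟨U, hU⟩ := Module.Finite.iff_fg.1 hK
  -- one `n` for all generators
  have h1 : ∃ n, ∀ z ∈ U, Ind.map V0.subtype z ∈ relS (VV k V0 n) := by
    have h2 : ∀ z ∈ U, ∃ n, Ind.map V0.subtype z ∈ relS (VV k V0 n) := by
      intro z hz
      obtain ⟨n, hn⟩ := ker_step V0 z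
      have hz' : eps V0 z = 0 := by
        have h3 : z ∈ LinearMap.ker (eps (k := k) V0) := hU ▸ Submodule.subset_span hz
        exact h3
      rw [hz', Ind.sg_zero, zero_sub] at hn
      exact ⟨n, by simpa using (relS (VV k V0 n)).neg_mem hn⟩
    choose! n hn using h2
    refine ⟨U.sup n, fun z hz => ?_⟩
    exact relS_mono (VV_mono V0 (Finset.le_sup hz)) (hn z hz)
  obtain ⟨n, hn⟩ := h1
  have hker : ∀ z, eps (k := k) V0 z = 0 → Ind.map V0.subtype z ∈ relS (VV k V0 n) := by
    intro z hz
    have h2 : z ∈ Submodule.span (MonoidAlgebra S (FreeGroup (Fin k)))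
        (U : Set (Ind S (FreeGroup (Fin k)) V0)) := by
      rw [hU]; exact hz
    have h3 : Submodule.span (MonoidAlgebra S (FreeGroup (Fin k)))
        (U : Set (Ind S (FreeGroup (Fin k)) V0)) ≤
        (relS (VV k V0 n)).comap (Ind.map V0.subtype) :=
      Submodule.span_le.2 (fun z hz => hn z hz)
    exact h3 h2
  let V : Submodule S P := VV k V0 n
  have hVfg : V.FG := VV_fg hV0 n
  have hVfin : Module.Finite S V := Module.Finite.iff_fg.2 hVfg
  have hVno : IsNoetherian S V := isNoetherian_of_isNoetherianRing_of_finite S V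
  have hle : V0 ≤ V := VV_mono V0 (Nat.zero_le n)
  refine ⟨V, QQ k V, hVfin, ?_, ?_⟩
  · -- `QQ` is noetherian
    have h2 : Function.Injective (LinearMap.pi (fun j => qa (k := k) V j)) := by
      intro a b hab
      refine Subtype.ext (funext fun j => ?_)
      exact congrArg Subtype.val (congrFun hab j)
    have h3 : IsNoetherian S (QQ k V) := isNoetherian_of_injective _ h2
    infer_instance
  · obtain ⟨e⟩ := exists_splitEquiv hP2 (eps V) (hsurj0 V hle)
    have hrange : LinearMap.range (theta (k := k) V) = LinearMap.ker (eps V) := by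
      refine le_antisymm (range_theta_le V) ?_
      intro z hz
      have hz' : eps V z = 0 := hz
      -- `z` is in `relS V ⊔ indS V0`
      have h2 : Ind.map V.subtype z ∈ relS V ⊔ indS k V0 := by
        have h3 : ∀ y : Ind S (FreeGroup (Fin k)) V,
            Ind.map V.subtype y ∈ relS V ⊔ indS k V0 := by
          intro y
          induction y using Ind.induction with
          | h0 => rw [map_zero]; exact Submodule.zero_mem _
          | hadd a b ha hb => rw [map_add]; exact Submodule.add_mem _ ha hb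
          | hs g v =>
            have h4 := (relS V ⊔ indS k V0).smul_mem (single g (1 : S))
              (descend V0 n v v.2)
            rw [Ind.single_smul_sg, one_smul, mul_one] at h4
            rw [Ind.map_sg]
            exact h4
        exact h3 z
      obtain ⟨r, hr, y, hy, hry⟩ := Submodule.mem_sup.1 h2
      obtain ⟨y0, rfl⟩ := indS_eq V0 hy
      have h5 : eps (k := k) V0 y0 = 0 := by
        have h6 : epsP S k P (r + Ind.map V0.subtype y0) = 0 := by
          rw [hry, epsP_map, hz']
        have h7 : epsP S k P r = 0 := epsP_relS V hr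
        rw [map_add, h7, zero_add, epsP_map] at h6
        exact h6
      have h8 : Ind.map V.subtype z ∈ relS V := by
        rw [← hry]
        exact Submodule.add_mem _ hr (hker y0 h5)
      obtain ⟨w, hw, hwz⟩ := relS_le V h8
      have h9 := Ind.map_injective V.injective_subtype hwz
      rw [← h9]
      exact hw
    exact ⟨e.trans (LinearEquiv.prodCongr ((LinearEquiv.ofInjective _
      (theta_injective V)).trans (LinearEquiv.ofEq _ _ hrange)).symm (LinearEquiv.refl _ _))⟩

end

/-- Module FREE. -/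
theorem free : FreeStatement.{u} := by
  intro S _ hS k z
  obtain ⟨hS1, hS2⟩ := hS
  have : IsNoetherianRing S := hS1
  have h : z ∈ (K0.map (MonoidAlgebra.singleOneRingHom :
      S →+* MonoidAlgebra S (FreeGroup (Fin k)))).range := by
    refine K0_eq_top (fun p => ?_) z
    let P := LinearMap.range (Matrix.toLinearMapRight' p.e)
    have hp : Rep P p := rep_range p
    obtain ⟨V, Q, hV, hQ, ⟨e⟩⟩ := geometric (S := S) (k := k) (P := P) hp.finite hp.projective
    obtain ⟨a, ha⟩ := hS2 V hV
    obtain ⟨b, hb⟩ := hS2 Q hQ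
    exact schanuel_induction (max b a) Q V (HasFPRes.mono (le_max_left _ _) hb)
      (HasFPRes.mono (le_max_right _ _) ha) P p hp ⟨e⟩
  exact h

end Pool.Agent.NegK.H50
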