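import Pool.Agent.Lib.MP_28303a_al.NK.Iface2

/-! # Induced modules `S[G] ⊗ M`, modelled by finitely supported functions `G → M` -/

set_option autoImplicit false
set_option linter.unusedSectionVars false

namespace Pool.Agent.NegK.H50

open MonoidAlgebra (single)

universe u

/-- `S[G] ⊗_S M`, as finitely supported functions. -/
def Ind (_S : Type u) (G : Type) (M : Type u) [AddCommGroup M] : Type u := G →₀ M

namespace Ind

section

variable (S : Type u) [Ring S] (G : Type) [Group G] (M : Type u) [AddCommGroup M] [Module S M]

noncomputable instance : AddCommGroup (Ind S G M) := inferInstanceAs (AddCommGroup (G →₀ M))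

noncomputable instance : Module S (Ind S G M) := inferInstanceAs (Module S (G →₀ M))

/-- Translation on `G →₀ M`. -/
noncomputable def transl : G →* AddMonoid.End (Ind S G M) where
  toFun g := (Finsupp.mapDomain.addMonoidHom (fun x => g * x) : (G →₀ M) →+ (G →₀ M))
  map_one' := by
    refine Finsupp.addHom_ext (fun x m => ?_)
    show Finsupp.mapDomain (fun x => 1 * x) (Finsupp.single x m) = Finsupp.single x m
    rw [Finsupp.mapDomain_single, one_mul]
  map_mul' g h := by
    refine Finsupp.addHom_ext (fun x m => ?_)
    show Finsupp.mapDomain (fun x => g * h * x) (Finsupp.single x m) =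
      Finsupp.mapDomain (fun x => g * x) (Finsupp.mapDomain (fun x => h * x)
        (Finsupp.single x m))
    rw [Finsupp.mapDomain_single, Finsupp.mapDomain_single, Finsupp.mapDomain_single, mul_assoc]

/-- The scalars. -/
noncomputable def scal : S →+* AddMonoid.End (Ind S G M) := Module.toAddMonoidEnd S (Ind S G M)

/-- The action of the group ring. -/
noncomputable def act : MonoidAlgebra S G →+* AddMonoid.End (Ind S G M) :=
  MonoidAlgebra.liftNCRingHom (scal S G M) (transl S G M) (by
    intro s g
    refine Finsupp.addHom_ext (fun x m => ?_)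
    show s • Finsupp.mapDomain (fun x => g * x) (Finsupp.single x m) =
      Finsupp.mapDomain (fun x => g * x) (s • Finsupp.single x m)
    rw [Finsupp.mapDomain_single, Finsupp.smul_single, Finsupp.smul_single,
      Finsupp.mapDomain_single])

noncomputable instance : Module (MonoidAlgebra S G) (Ind S G M) :=
  Module.compHom (Ind S G M) (act S G M)

end

section

variable {S : Type u} [Ring S] {G : Type} [Group G] {M : Type u} [AddCommGroup M] [Module S M]

/-- `g ⊗ m`. -/
noncomputable def sg (S : Type u) {G : Type} {M : Type u} [AddCommGroup M] (g : G) (m : M) :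
    Ind S G M := Finsupp.single g m

theorem sg_add (g : G) (m m' : M) : sg S g (m + m') = sg S g m + sg S g m' :=
  Finsupp.single_add g m m'

theorem sg_zero (g : G) : sg S g (0 : M) = 0 := Finsupp.single_zero g

theorem sg_neg (g : G) (m : M) : sg S g (-m) = -sg S g m := Finsupp.single_neg g m

theorem sg_sub (g : G) (m m' : M) : sg S g (m - m') = sg S g m - sg S g m' :=
  Finsupp.single_sub g m m'

theorem smul_sg' (s : S) (g : G) (m : M) : s • sg S g m = sg S g (s • m) :=
  Finsupp.smul_single s g m

@[simp] theorem single_smul_sg (g : G) (s : S) (h : G) (m : M) :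
    (single g s : MonoidAlgebra S G) • sg S h m = sg S (g * h) (s • m) := by
  show act S G M (single g s) (sg S h m) = _
  unfold act
  rw [MonoidAlgebra.liftNCRingHom_single]
  show s • Finsupp.mapDomain (fun x => g * x) (Finsupp.single h m) = Finsupp.single (g * h) (s • m)
  rw [Finsupp.mapDomain_single, Finsupp.smul_single]

theorem induction {p : Ind S G M → Prop} (z : Ind S G M) (h0 : p 0)
    (hadd : ∀ x y, p x → p y → p (x + y)) (hs : ∀ g m, p (sg S g m)) : p z :=
  Finsupp.induction_linear z h0 hadd hs

/-- Value of a finitely supported function. -/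
def coef (g : G) : Ind S G M →+ M := Finsupp.applyAddHom g

theorem coef_sg [DecidableEq G] (g h : G) (m : M) :
    coef g (sg S h m) = if h = g then m else 0 := Finsupp.single_apply

theorem ext_coef {x y : Ind S G M} (h : ∀ g, coef g x = coef g y) : x = y :=
  Finsupp.ext h

instance : IsScalarTower S (MonoidAlgebra S G) (Ind S G M) := by
  refine ⟨fun s a z => ?_⟩
  induction a using MonoidAlgebra.induction_linear with
  | zero => rw [smul_zero, zero_smul, smul_zero]
  | add x y hx hy => rw [smul_add, add_smul, add_smul, smul_add, hx, hy]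
  | single g r =>
    induction z using Ind.induction with
    | h0 => rw [smul_zero, smul_zero, smul_zero]
    | hadd x y hx hy => rw [smul_add, smul_add, smul_add, hx, hy]
    | hs h m =>
      rw [MonoidAlgebra.smul_single, single_smul_sg, single_smul_sg, smul_sg', smul_smul,
        smul_eq_mul]

end

section

variable {S : Type u} [Ring S] {G : Type} [Group G] {M : Type u} [AddCommGroup M] [Module S M]
  {N : Type u} [AddCommGroup N] [Module (MonoidAlgebra S G) N] [Module S N]
  [IsScalarTower S (MonoidAlgebra S G) N]

theorem one_smul_eq (s : S) (n : N) :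
    s • n = (single (1 : G) s : MonoidAlgebra S G) • n := by
  have h : (single (1 : G) s : MonoidAlgebra S G) = s • (1 : MonoidAlgebra S G) := by
    rw [MonoidAlgebra.one_def, MonoidAlgebra.smul_single, smul_eq_mul, mul_one]
  rw [h, smul_assoc, one_smul]

theorem single_smul_smul (g : G) (s : S) (n : N) :
    (single g (1 : S) : MonoidAlgebra S G) • (s • n) =
      (single g s : MonoidAlgebra S G) • n := by
  rw [one_smul_eq (G := G) s n, smul_smul, MonoidAlgebra.single_mul_single, mul_one, one_mul]

theorem smul_single_smul (g : G) (s : S) (n : N) :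
    s • ((single g (1 : S) : MonoidAlgebra S G) • n) =
      (single g s : MonoidAlgebra S G) • n := by
  rw [one_smul_eq (G := G) s, smul_smul, MonoidAlgebra.single_mul_single, mul_one, one_mul]

/-- The action of a group element, as an `S`-linear map. -/
noncomputable def actG (S : Type u) [Ring S] {G : Type} [Group G] (N : Type u) [AddCommGroup N]
    [Module (MonoidAlgebra S G) N] [Module S N] [IsScalarTower S (MonoidAlgebra S G) N] (g : G) :
    N →ₗ[S] N where
  toFun n := (single g (1 : S) : MonoidAlgebra S G) • n
  map_add' x y := smul_add _ x y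
  map_smul' s x := by
    rw [single_smul_smul, RingHom.id_apply, smul_single_smul]

theorem actG_apply (g : G) (n : N) :
    actG S N g n = (single g (1 : S) : MonoidAlgebra S G) • n := rfl

/-- The universal property of `S[G] ⊗_S M`. -/
noncomputable def lift (f : M →ₗ[S] N) : Ind S G M →ₗ[MonoidAlgebra S G] N where
  toFun z := Finsupp.liftAddHom (fun g => ((actG S N g).comp f).toAddMonoidHom) z
  map_add' x y := map_add _ x y
  map_smul' a z := by
    let L : Ind S G M →+ N := Finsupp.liftAddHom (fun g => ((actG S N g).comp f).toAddMonoidHom)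
    have hL : ∀ g m, L (sg S g m) = (single g (1 : S) : MonoidAlgebra S G) • f m :=
      fun g m => Finsupp.liftAddHom_apply_single _ g m
    show L (a • z) = a • L z
    induction a using MonoidAlgebra.induction_linear with
    | zero => rw [zero_smul, zero_smul, map_zero]
    | add x y hx hy => rw [add_smul, add_smul, map_add, hx, hy]
    | single g s =>
      induction z using Ind.induction with
      | h0 => rw [smul_zero, map_zero, smul_zero]
      | hadd x y hx hy => rw [smul_add, map_add, hx, hy, map_add, smul_add]
      | hs h m =>
        rw [single_smul_sg, hL, hL, map_smul, single_smul_smul, smul_smul,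
          MonoidAlgebra.single_mul_single, mul_one]

theorem lift_sg (f : M →ₗ[S] N) (g : G) (m : M) :
    lift f (sg S g m) = (single g (1 : S) : MonoidAlgebra S G) • f m :=
  Finsupp.liftAddHom_apply_single _ g m

omit [Module S N] [IsScalarTower S (MonoidAlgebra S G) N] in
theorem hom_ext {f f' : Ind S G M →ₗ[MonoidAlgebra S G] N}
    (h : ∀ m, f (sg S 1 m) = f' (sg S 1 m)) : f = f' := by
  refine LinearMap.ext (fun z => ?_)
  induction z using Ind.induction with
  | h0 => rw [map_zero, map_zero]
  | hadd x y hx hy => rw [map_add, map_add, hx, hy]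
  | hs g m =>
    have h1 : sg S g m = (single g (1 : S) : MonoidAlgebra S G) • sg S 1 m := by
      rw [single_smul_sg, mul_one, one_smul]
    rw [h1, map_smul, map_smul, h]

end

section

variable {S : Type u} [Ring S] {G : Type} [Group G] {X : Type u} [AddCommGroup X] [Module S X]
  {Y : Type u} [AddCommGroup Y] [Module S Y]

/-- The map `y ↦ g ⊗ y`. -/
noncomputable def lsg (S : Type u) [Ring S] {G : Type} [Group G] (Y : Type u) [AddCommGroup Y]
    [Module S Y] (g : G) : Y →ₗ[S] Ind S G Y where
  toFun y := sg S g y
  map_add' := sg_add g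
  map_smul' s y := (smul_sg' s g y).symm

theorem lsg_apply (g : G) (y : Y) : lsg S Y g y = sg S g y := rfl

/-- Functoriality. -/
noncomputable def map (f : X →ₗ[S] Y) : Ind S G X →ₗ[MonoidAlgebra S G] Ind S G Y :=
  lift ((lsg S Y (1 : G)).comp f)

@[simp] theorem map_sg (f : X →ₗ[S] Y) (g : G) (x : X) :
    map f (sg S g x) = sg S g (f x) := by
  unfold map
  rw [lift_sg, LinearMap.comp_apply, lsg_apply]
  rw [single_smul_sg, mul_one, one_smul]

theorem coef_map (f : X →ₗ[S] Y) (g : G) (z : Ind S G X) :
    coef g (map f z) = f (coef g z) := by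
  classical
  induction z using Ind.induction with
  | h0 => rw [map_zero, map_zero, map_zero, map_zero]
  | hadd x y hx hy => rw [map_add, map_add, hx, hy, map_add, map_add]
  | hs h m =>
    rw [map_sg, coef_sg, coef_sg]
    split_ifs
    · rfl
    · rw [map_zero]

theorem map_injective {f : X →ₗ[S] Y} (hf : Function.Injective f) :
    Function.Injective (map (G := G) f) := by
  intro x y h
  refine ext_coef (fun g => hf ?_)
  rw [← coef_map, ← coef_map, h]

theorem map_surjective {f : X →ₗ[S] Y} (hf : Function.Surjective f) :
    Function.Surjective (map (G := G) f) := by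
  intro z
  induction z using Ind.induction with
  | h0 => exact ⟨0, map_zero _⟩
  | hadd x y hx hy =>
    obtain ⟨a, rfl⟩ := hx
    obtain ⟨b, rfl⟩ := hy
    exact ⟨a + b, map_add _ _ _⟩
  | hs h m =>
    obtain ⟨x, rfl⟩ := hf m
    exact ⟨sg S h x, map_sg _ _ _⟩

/-- `S[G] ⊗ ker f` is the kernel of `S[G] ⊗ f`. -/
theorem ker_map (f : X →ₗ[S] Y) :
    Nonempty (Ind S G (LinearMap.ker f) ≃ₗ[MonoidAlgebra S G]
      LinearMap.ker (map (G := G) f)) := by
  have h1 : LinearMap.range (map (G := G) (LinearMap.ker f).subtype) =
      LinearMap.ker (map (G := G) f) := by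
    ext z
    rw [LinearMap.mem_range, LinearMap.mem_ker]
    constructor
    · rintro ⟨y, rfl⟩
      refine ext_coef (fun g => ?_)
      rw [coef_map, coef_map, map_zero]
      exact (coef g y).2
    · intro hz
      have h2 : ∀ g, coef g z ∈ LinearMap.ker f := by
        intro g
        rw [LinearMap.mem_ker, ← coef_map, hz, map_zero]
      let y : G →₀ LinearMap.ker f :=
        Finsupp.onFinset (Finsupp.support (z : G →₀ X)) (fun g => ⟨coef g z, h2 g⟩) (by
          intro g hg
          rw [Finsupp.mem_support_iff]
          intro h3
          exact hg (Subtype.ext h3))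
      refine ⟨y, ext_coef (fun g => ?_)⟩
      rw [coef_map]
      rfl
  exact ⟨(LinearEquiv.ofInjective _ (map_injective (LinearMap.ker f).injective_subtype)).trans
    (LinearEquiv.ofEq _ _ h1)⟩

/-- `S[G] ⊗ (X × Y) = (S[G] ⊗ X) × (S[G] ⊗ Y)`. -/
noncomputable def prodEquiv :
    Ind S G (X × Y) ≃ₗ[MonoidAlgebra S G] Ind S G X × Ind S G Y :=
  LinearEquiv.ofLinearMap
    (LinearMap.prod (map (LinearMap.fst S X Y)) (map (LinearMap.snd S X Y)))
    (LinearMap.coprod (map (LinearMap.inl S X Y)) (map (LinearMap.inr S X Y)))
    (by
      refine LinearMap.prod_ext (hom_ext fun x => ?_) (hom_ext fun y => ?_)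
      · simp only [LinearMap.comp_apply, LinearMap.inl_apply, LinearMap.coprod_apply, map_sg,
          map_zero, add_zero, LinearMap.prod_apply, Function.prod_apply, LinearMap.fst_apply,
          LinearMap.snd_apply, LinearMap.id_apply, sg_zero]
      · simp only [LinearMap.comp_apply, LinearMap.inr_apply, LinearMap.coprod_apply, map_sg,
          map_zero, zero_add, LinearMap.prod_apply, Function.prod_apply, LinearMap.fst_apply,
          LinearMap.snd_apply, LinearMap.id_apply, sg_zero])
    (by
      refine hom_ext fun z => ?_
      obtain ⟨x, y⟩ := z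
      simp only [LinearMap.comp_apply, LinearMap.coprod_apply, map_sg,
          LinearMap.prod_apply, Function.prod_apply, LinearMap.fst_apply,
          LinearMap.snd_apply, LinearMap.id_apply, LinearMap.inl_apply, LinearMap.inr_apply]
      rw [← sg_add, Prod.mk_add_mk, add_zero, zero_add])

end

end Ind

end Pool.Agent.NegK.H50
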