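import Pool.Agent.Lib.MP_28303a_al.NK.H50.Ext
import Pool.Agent.Lib.MP_28303a_al.NK.H50.Ind

/-! # Modules represented by idempotent matrices, and the Schanuel induction -/

set_option autoImplicit false
set_option linter.unusedSectionVars false

namespace Pool.Agent.NegK.H50

open MonoidAlgebra (single)

universe u v

section

variable {A : Type u} [Ring A]

/-- `M` is isomorphic to the module `A^n e`. -/
def Rep (M : Type v) [AddCommGroup M] [Module A M] (p : Idem A) : Prop :=
  ∃ (α : M →ₗ[A] (Fin p.n → A)) (β : (Fin p.n → A) →ₗ[A] M), β ∘ₗ α = LinearMap.id ∧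
    α ∘ₗ β = Matrix.toLinearMapRight' p.e

variable {M : Type v} [AddCommGroup M] [Module A M] {N : Type v} [AddCommGroup N] [Module A N]

theorem Rep.congr {p : Idem A} (h : Rep M p) (e : M ≃ₗ[A] N) : Rep N p := by
  obtain ⟨α, β, h1, h2⟩ := h
  refine ⟨α ∘ₗ e.symm.toLinearMap, e.toLinearMap ∘ₗ β, ?_, ?_⟩
  · refine LinearMap.ext fun x => ?_
    have h3 := LinearMap.congr_fun h1 (e.symm x)
    simp only [LinearMap.comp_apply, LinearEquiv.coe_coe, LinearMap.id_apply] at h3 ⊢
    rw [h3, e.apply_symm_apply]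
  · rw [← h2]
    refine LinearMap.ext fun x => ?_
    simp only [LinearMap.comp_apply, LinearEquiv.coe_coe, e.symm_apply_apply]

theorem Rep.equiv {p q : Idem A} (hp : Rep M p) (hq : Rep M q) : p.Equiv q := by
  obtain ⟨α, β, h1, h2⟩ := hp
  obtain ⟨α', β', h3, h4⟩ := hq
  refine ⟨LinearMap.toMatrixRight' (α' ∘ₗ β), LinearMap.toMatrixRight' (α ∘ₗ β'), ?_, ?_⟩
  · rw [← LinearMap.toMatrixRight'_comp]
    have h5 : (α ∘ₗ β') ∘ₗ (α' ∘ₗ β) = α ∘ₗ β := by
      refine LinearMap.ext fun x => ?_
      simp only [LinearMap.comp_apply]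
      exact congrArg α (LinearMap.congr_fun h3 (β x))
    rw [h5, h2]
    exact LinearEquiv.apply_symm_apply _ _
  · rw [← LinearMap.toMatrixRight'_comp]
    have h5 : (α' ∘ₗ β) ∘ₗ (α ∘ₗ β') = α' ∘ₗ β' := by
      refine LinearMap.ext fun x => ?_
      simp only [LinearMap.comp_apply]
      exact congrArg α' (LinearMap.congr_fun h1 (β' x))
    rw [h5, h4]
    exact LinearEquiv.apply_symm_apply _ _

theorem Rep.projective {p : Idem A} (hp : Rep M p) : Module.Projective A M := by
  obtain ⟨α, β, h1, h2⟩ := hp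
  exact Module.Projective.of_split α β h1

theorem Rep.finite {p : Idem A} (hp : Rep M p) : Module.Finite A M := by
  obtain ⟨α, β, h1, h2⟩ := hp
  exact Module.Finite.of_surjective β (fun x => ⟨α x, LinearMap.congr_fun h1 x⟩)

theorem exists_rep (h1 : Module.Finite A M) (h2 : Module.Projective A M) :
    ∃ p : Idem A, Rep M p := by
  obtain ⟨n, f, hf⟩ := Module.Finite.exists_fin' A M
  obtain ⟨s, hs⟩ := Module.projective_lifting_property f LinearMap.id hf
  have hs' : ∀ x, f (s x) = x := fun x => LinearMap.congr_fun hs x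
  refine ⟨⟨n, LinearMap.toMatrixRight' (s ∘ₗ f), ?_⟩, s, f, hs, ?_⟩
  · rw [← LinearMap.toMatrixRight'_comp]
    congr 1
    refine LinearMap.ext fun x => ?_
    simp only [LinearMap.comp_apply, hs']
  · exact (LinearEquiv.symm_apply_apply _ _).symm

theorem rep_range (p : Idem A) :
    Rep (LinearMap.range (Matrix.toLinearMapRight' p.e)) p := by
  refine ⟨Submodule.subtype _, LinearMap.rangeRestrict _, ?_, ?_⟩
  · refine LinearMap.ext fun x => ?_
    obtain ⟨x, y, rfl⟩ := x
    refine Subtype.ext ?_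
    show Matrix.toLinearMapRight' p.e (Matrix.toLinearMapRight' p.e y) =
      Matrix.toLinearMapRight' p.e y
    rw [← Matrix.toLinearMapRight'_mul_apply, p.idem]
  · rfl

theorem Rep.prod {p q : Idem A} (hp : Rep M p) (hq : Rep N q) : Rep (M × N) (p.sum q) := by
  obtain ⟨α, β, h1, h2⟩ := hp
  obtain ⟨α', β', h3, h4⟩ := hq
  let i : (Fin p.n → A) × (Fin q.n → A) →ₗ[A] (Fin (p.n + q.n) → A) :=
    { toFun := fun v k => Sum.elim v.1 v.2 (finSumFinEquiv.symm k)
      map_add' := by
        intro v w
        ext k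
        rcases hk : finSumFinEquiv.symm k with a | a <;> simp [hk]
      map_smul' := by
        intro c v
        ext k
        rcases hk : finSumFinEquiv.symm k with a | a <;> simp [hk] }
  let j : (Fin (p.n + q.n) → A) →ₗ[A] (Fin p.n → A) × (Fin q.n → A) :=
    { toFun := fun v => (fun a => v (finSumFinEquiv (Sum.inl a)),
        fun a => v (finSumFinEquiv (Sum.inr a)))
      map_add' := by
        intro v w
        rfl
      map_smul' := by
        intro c v
        rfl }
  have hji : ∀ v, j (i v) = v := by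
    rintro ⟨v, w⟩
    refine Prod.ext (funext fun a => ?_) (funext fun a => ?_)
    · show Sum.elim v w (finSumFinEquiv.symm (finSumFinEquiv (Sum.inl a))) = v a
      rw [Equiv.symm_apply_apply]; rfl
    · show Sum.elim v w (finSumFinEquiv.symm (finSumFinEquiv (Sum.inr a))) = w a
      rw [Equiv.symm_apply_apply]; rfl
  refine ⟨i ∘ₗ (α.prodMap α'), (β.prodMap β') ∘ₗ j, ?_, ?_⟩
  · refine LinearMap.ext fun x => ?_
    obtain ⟨x, y⟩ := x
    show (β.prodMap β') (j (i ((α.prodMap α') (x, y)))) = (x, y)
    rw [hji]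
    exact Prod.ext (LinearMap.congr_fun h1 x) (LinearMap.congr_fun h3 y)
  · refine LinearMap.ext fun v => ?_
    have hv : v = i (j v) := by
      funext k
      show v k = Sum.elim (fun a => v (finSumFinEquiv (Sum.inl a)))
        (fun a => v (finSumFinEquiv (Sum.inr a))) (finSumFinEquiv.symm k)
      rcases hk : finSumFinEquiv.symm k with a | a
      · simp only [Sum.elim_inl]
        rw [← hk, Equiv.apply_symm_apply]
      · simp only [Sum.elim_inr]
        rw [← hk, Equiv.apply_symm_apply]
    rw [Matrix.toLinearMapRight'_apply]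
    show i ((α.prodMap α') ((β.prodMap β') (j v))) = Matrix.vecMul v (p.sum q).e
    rcases hxy : j v with ⟨x, y⟩
    rw [hv, hxy]
    have h5 : α (β x) = Matrix.vecMul x p.e := LinearMap.congr_fun h2 x
    have h6 : α' (β' y) = Matrix.vecMul y q.e := LinearMap.congr_fun h4 y
    show i (α (β x), α' (β' y)) = _
    rw [h5, h6]
    funext k
    show Sum.elim (Matrix.vecMul x p.e) (Matrix.vecMul y q.e) (finSumFinEquiv.symm k) =
      Matrix.vecMul (fun k => Sum.elim x y (finSumFinEquiv.symm k))
        ((Matrix.fromBlocks p.e 0 0 q.e).submatrix finSumFinEquiv.symm finSumFinEquiv.symm) k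
    rw [Matrix.submatrix_vecMul_equiv]
    have h7 : (fun k => Sum.elim x y (finSumFinEquiv.symm k)) ∘ (finSumFinEquiv (m := p.n)
        (n := q.n)).symm.symm = Sum.elim x y := by
      funext s
      show Sum.elim x y (finSumFinEquiv.symm (finSumFinEquiv s)) = _
      rw [Equiv.symm_apply_apply]
    rw [h7, Function.comp_apply, Matrix.vecMul_fromBlocks]
    rcases finSumFinEquiv.symm k with a | a <;> simp

theorem cls_eq_of_equiv {p q : Idem A} (h : p.Equiv q) : K0.cls p = K0.cls q := by
  unfold K0.cls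
  rw [QuotientAddGroup.eq]
  have h1 : FreeAbelianGroup.of p - FreeAbelianGroup.of q ∈ K0Rel A :=
    AddSubgroup.subset_closure (Or.inl ⟨p, q, h, rfl⟩)
  have h2 := (K0Rel A).neg_mem h1
  rwa [neg_sub, sub_eq_neg_add] at h2

theorem cls_sum (p q : Idem A) : K0.cls (p.sum q) = K0.cls p + K0.cls q := by
  unfold K0.cls
  rw [← QuotientAddGroup.mk_add, QuotientAddGroup.eq]
  have h1 : FreeAbelianGroup.of (p.sum q) - (FreeAbelianGroup.of p + FreeAbelianGroup.of q) ∈
      K0Rel A := AddSubgroup.subset_closure (Or.inr ⟨p, q, rfl⟩)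
  have h2 := (K0Rel A).neg_mem h1
  rwa [neg_sub, sub_eq_neg_add] at h2

theorem Rep.cls_eq {p q : Idem A} (hp : Rep M p) (hq : Rep N q) (e : M ≃ₗ[A] N) :
    K0.cls p = K0.cls q :=
  cls_eq_of_equiv ((hp.congr e).equiv hq)

/-- A subgroup of `K₀` which contains all classes is everything. -/
theorem K0_eq_top {H : AddSubgroup (K0 A)} (h : ∀ p, K0.cls p ∈ H) (z : K0 A) : z ∈ H := by
  have h1 : QuotientAddGroup.mk' H = 0 := by
    refine K0.hom_ext fun p => ?_
    rw [AddMonoidHom.zero_apply]
    exact (QuotientAddGroup.eq_zero_iff _).2 (h p)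
  exact (QuotientAddGroup.eq_zero_iff z).1 (DFunLike.congr_fun h1 z)

end

section

variable {S : Type u} [Ring S] {G : Type} [Group G]

theorem Rep.ind {X : Type u} [AddCommGroup X] [Module S X] {x : Idem S} (h : Rep X x) :
    Rep (Ind S G X) (x.map (MonoidAlgebra.singleOneRingHom : S →+* MonoidAlgebra S G)) := by
  obtain ⟨α, β, h1, h2⟩ := h
  let a0 : X →ₗ[S] (Fin x.n → MonoidAlgebra S G) :=
    { toFun := fun y i => single 1 (α y i)
      map_add' := by
        intro y z
        funext i
        rw [map_add, Pi.add_apply, MonoidAlgebra.single_add]; rfl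
      map_smul' := by
        intro s y
        funext i
        rw [map_smul, Pi.smul_apply, RingHom.id_apply, Pi.smul_apply,
          MonoidAlgebra.smul_single] }
  let a : Ind S G X →ₗ[MonoidAlgebra S G] (Fin x.n → MonoidAlgebra S G) := Ind.lift a0
  let b : (Fin x.n → MonoidAlgebra S G) →ₗ[MonoidAlgebra S G] Ind S G X :=
    Fintype.linearCombination (MonoidAlgebra S G)
      (fun i => Ind.sg S (1 : G) (β (Pi.single i 1)))
  have ha : ∀ y, a (Ind.sg S 1 y) = fun i => single 1 (α y i) := by
    intro y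
    show Ind.lift a0 (Ind.sg S 1 y) = _
    rw [Ind.lift_sg, ← MonoidAlgebra.one_def, one_smul]
    rfl
  have hb : ∀ v, b v = ∑ i, v i • Ind.sg S (1 : G) (β (Pi.single i 1)) := fun v =>
    Fintype.linearCombination_apply _ _ v
  have hba : b ∘ₗ a = LinearMap.id := by
    refine Ind.hom_ext fun y => ?_
    rw [LinearMap.comp_apply, ha, hb, LinearMap.id_apply]
    have h3 : ∀ i, (single 1 (α y i) : MonoidAlgebra S G) •
        Ind.sg S (1 : G) (β (Pi.single i 1)) = Ind.lsg S X (1 : G) (β (α y i • Pi.single i 1)) := by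
      intro i
      rw [Ind.single_smul_sg, mul_one, ← map_smul]
      rfl
    rw [Finset.sum_congr rfl (fun i _ => h3 i), ← map_sum, ← map_sum]
    have h4 : ∑ i, α y i • (Pi.single i (1 : S) : Fin x.n → S) = α y := by
      funext j
      simp [Finset.sum_apply, Pi.single_apply]
    rw [h4]
    have h5 : β (α y) = y := LinearMap.congr_fun h1 y
    rw [h5]
    rfl
  have hab : a ∘ₗ b = Matrix.toLinearMapRight' (x.e.map
      (MonoidAlgebra.singleOneRingHom : S →+* MonoidAlgebra S G)) := by
    refine LinearMap.pi_ext' fun i => LinearMap.ext_ring ?_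
    rw [LinearMap.comp_apply, LinearMap.comp_apply, LinearMap.comp_apply,
      LinearMap.single_apply, hb]
    have h3 : ∑ j, (Pi.single i (1 : MonoidAlgebra S G) : Fin x.n → MonoidAlgebra S G) j •
        Ind.sg S (1 : G) (β (Pi.single j 1)) = Ind.sg S (1 : G) (β (Pi.single i 1)) := by
      rw [Finset.sum_eq_single i]
      · rw [Pi.single_eq_same, one_smul]
      · intro j _ hj
        rw [Pi.single_eq_of_ne hj, zero_smul]
      · intro hi
        exact absurd (Finset.mem_univ i) hi
    rw [h3, ha, Matrix.toLinearMapRight'_apply]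
    funext j
    have h4 : α (β (Pi.single i 1)) = Matrix.vecMul (Pi.single i 1) x.e :=
      LinearMap.congr_fun h2 _
    rw [h4, Matrix.single_one_vecMul, Matrix.single_one_vecMul]
    rfl
  exact ⟨a, b, hba, hab⟩

/-- The Schanuel induction. -/
theorem schanuel_induction (n : ℕ) : ∀ (X Y : Type u) [AddCommGroup X] [Module S X]
    [AddCommGroup Y] [Module S Y], HasFPRes S n X → HasFPRes S n Y →
    ∀ (P : Type u) [AddCommGroup P] [Module (MonoidAlgebra S G) P] (p : Idem (MonoidAlgebra S G)),
      Rep P p → Nonempty (Ind S G Y ≃ₗ[MonoidAlgebra S G] Ind S G X × P) →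
      K0.cls p ∈ (K0.map (MonoidAlgebra.singleOneRingHom : S →+* MonoidAlgebra S G)).range := by
  induction n with
  | zero =>
    intro X Y _ _ _ _ hX hY P _ _ p hp he
    obtain ⟨hX1, hX2⟩ := hX
    obtain ⟨hY1, hY2⟩ := hY
    obtain ⟨e⟩ := he
    obtain ⟨x, hx⟩ := exists_rep hX1 hX2
    obtain ⟨y, hy⟩ := exists_rep hY1 hY2
    have h1 := (Rep.ind (G := G) hy).cls_eq ((Rep.ind (G := G) hx).prod hp) e
    rw [cls_sum] at h1
    refine ⟨K0.cls y - K0.cls x, ?_⟩
    rw [map_sub, K0.map_cls, K0.map_cls, h1, add_sub_cancel_left]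
  | succ n ih =>
    intro X Y _ _ _ _ hX hY P _ _ p hp he
    obtain ⟨e⟩ := he
    obtain ⟨FX, _, _, f, hf1, hf2, hf3, hf4⟩ := hX
    obtain ⟨FY, _, _, g, hg1, hg2, hg3, hg4⟩ := hY
    obtain ⟨x, hx⟩ := exists_rep hf1 hf2
    obtain ⟨y, hy⟩ := exists_rep hg1 hg2
    have hPX : Module.Projective (MonoidAlgebra S G) (Ind S G FX × P) :=
      ((Rep.ind (G := G) hx).prod hp).projective
    have hPY : Module.Projective (MonoidAlgebra S G) (Ind S G FY) :=
      (Rep.ind (G := G) hy).projective
    let F : Ind S G FX × P →ₗ[MonoidAlgebra S G] Ind S G X × P :=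
      (Ind.map f).prodMap LinearMap.id
    let K : Ind S G FY →ₗ[MonoidAlgebra S G] Ind S G X × P := e.toLinearMap ∘ₗ (Ind.map g)
    have hF : Function.Surjective F := by
      rintro ⟨a, b⟩
      obtain ⟨c, rfl⟩ := Ind.map_surjective hf3 a
      exact ⟨(c, b), rfl⟩
    have hK : Function.Surjective K := e.surjective.comp (Ind.map_surjective hg3)
    obtain ⟨e1⟩ := schanuel hPX hPY F K hF hK
    -- `ker K × (Ind FX × P) ≃ ker F × Ind FY`
    have eK : LinearMap.ker K = LinearMap.ker (Ind.map (G := G) g) := LinearEquiv.ker_comp _ _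
    obtain ⟨eY⟩ := Ind.ker_map (G := G) g
    obtain ⟨eX⟩ := Ind.ker_map (G := G) f
    have eF : LinearMap.ker (Ind.map (G := G) f) ≃ₗ[MonoidAlgebra S G] LinearMap.ker F :=
      { toFun := fun z => ⟨((z : Ind S G FX), 0), by
          have := z.2
          rw [LinearMap.mem_ker] at this ⊢
          exact Prod.ext this rfl⟩
        invFun := fun z => ⟨(z : Ind S G FX × P).1, by
          have := z.2
          rw [LinearMap.mem_ker] at this ⊢
          exact congrArg Prod.fst this⟩
        map_add' := fun x y => Subtype.ext (Prod.ext rfl (add_zero (0 : P)).symm)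
        map_smul' := fun r x => Subtype.ext (Prod.ext rfl (smul_zero (A := P) r).symm)
        left_inv := fun x => rfl
        right_inv := fun x => by
          refine Subtype.ext (Prod.ext rfl ?_)
          have := x.2
          rw [LinearMap.mem_ker] at this
          exact (congrArg Prod.snd this).symm }
    -- the new data
    refine ih (LinearMap.ker g × FX) (LinearMap.ker f × FY) (hg4.prod hf1 hf2)
      (hf4.prod hg1 hg2) P p hp ⟨?_⟩
    have e2 : Ind S G (LinearMap.ker f × FY) ≃ₗ[MonoidAlgebra S G]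
        LinearMap.ker F × Ind S G FY :=
      Ind.prodEquiv.trans (LinearEquiv.prodCongr (eX.trans eF) (LinearEquiv.refl _ _))
    have e3 : Ind S G (LinearMap.ker g × FX) ≃ₗ[MonoidAlgebra S G]
        LinearMap.ker K × Ind S G FX :=
      Ind.prodEquiv.trans (LinearEquiv.prodCongr (eY.trans (LinearEquiv.ofEq _ _ eK.symm))
        (LinearEquiv.refl _ _))
    exact (e2.trans e1.symm).trans ((LinearEquiv.prodAssoc (MonoidAlgebra S G) _ _ _).symm.trans
      (LinearEquiv.prodCongr e3.symm (LinearEquiv.refl _ _)))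

end

end Pool.Agent.NegK.H50
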